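import Pool.Agent.N912.LC.Stm
import Pool.Agent.N912.EP.W632EGRegx

/-!
# LC3: the sums over pairs in an ideal vary slowly, port of `Pool.Agent.N912.EP.W632EG.regx`
-/

set_option autoImplicit false

namespace Pool.Agent.N196.LC

open Finset
open Pool.Agent.W78.GA
open Pool.Agent.N912.EP.W78EG (pp)
open Pool.Agent.N912.EP.W632EG (nmR form_nonneg line ln cntb nsl one_le_nm)
open Pool.Agent.N912.LC

variable {t c : ℤ}

/-- few vectors on a line -/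
theorem lnm (hD : t ^ 2 < 4 * c) {m : ℕ} (hm : 1 ≤ m) : ∀ s : ℝ, 0 < s → ∃ C : ℕ, ∀ (X : ℝ)
    (w : Qd t c) (k : ℤ), 1 ≤ X → (k = m ∨ k = -m) → s * X < (nm w : ℝ) →
    ((ball t c (4 * X)).filter (fun z => dt w z = k)).card ≤ C := by
  intro s hs
  have hmR : (1 : ℝ) ≤ m := by exact_mod_cast hm
  obtain ⟨C, hC⟩ := ln hD (s / (m : ℝ) ^ 2) (by positivity)
  refine ⟨C, ?_⟩
  intro X w k hX hk hsw
  set F := (ball t c (4 * X)).filter (fun z : Qd t c => dt w z = k) with hF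
  rcases F.eq_empty_or_nonempty with h0 | ⟨z₀, hz₀⟩
  · rw [h0, card_empty]
    exact Nat.zero_le _
  rw [hF, mem_filter] at hz₀
  have hd0 := hz₀.2
  -- the primitive vector
  obtain ⟨g, hg⟩ : ∃ g : ℕ, g = Int.gcd w.re w.im := ⟨_, rfl⟩
  obtain ⟨a, ha⟩ : (g : ℤ) ∣ w.re := by rw [hg]; exact Int.gcd_dvd_left ..
  obtain ⟨b, hb⟩ : (g : ℤ) ∣ w.im := by rw [hg]; exact Int.gcd_dvd_right ..
  have hgk : (g : ℤ) ∣ k := by
    rw [← hd0]
    unfold dt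
    rw [ha, hb]
    exact ⟨a * z₀.im - b * z₀.re, by ring⟩
  have hgm : (g : ℤ) ∣ m := by
    rcases hk with h | h
    · rw [h] at hgk; exact hgk
    · rw [h] at hgk; exact (dvd_neg.1 hgk)
  have hgmn : g ∣ m := by exact_mod_cast hgm
  have hg0 : 0 < g := Nat.pos_of_dvd_of_pos hgmn hm
  have hgle : g ≤ m := Nat.le_of_dvd hm hgmn
  obtain ⟨k', hk'⟩ := hgk
  have hg0Z : (g : ℤ) ≠ 0 := by exact_mod_cast hg0.ne'
  obtain ⟨w₀, hw₀⟩ : ∃ w₀ : Qd t c, w₀ = ⟨a, b⟩ := ⟨_, rfl⟩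
  have hwp : prim w₀ := by
    unfold prim
    rw [hw₀]
    have h1 : Int.gcd w.re w.im = g * Int.gcd a b := by
      rw [ha, hb, Int.gcd_mul_left, Int.natAbs_natCast]
    rw [← hg] at h1
    have h2 : g * 1 = g * Int.gcd a b := by omega
    exact (Nat.eq_of_mul_eq_mul_left hg0 h2).symm
  have hnm : (nm w : ℝ) = (g : ℝ) ^ 2 * nm w₀ := by
    rw [nmR hD w, nmR hD w₀, hw₀, ha, hb]
    push_cast
    ring
  have hsw0 : s / (m : ℝ) ^ 2 * X < (nm w₀ : ℝ) := by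
    have h1 : (g : ℝ) ^ 2 * nm w₀ ≤ (m : ℝ) ^ 2 * nm w₀ := by
      have : (g : ℝ) ≤ m := by exact_mod_cast hgle
      gcongr
    have h2 : s * X < (m : ℝ) ^ 2 * nm w₀ := by linarith
    rw [div_mul_eq_mul_div, div_lt_iff₀ (by positivity)]
    linarith
  refine le_trans (card_le_card ?_) (hC X w₀ k' hX hwp hsw0)
  intro z hz
  rw [hF, mem_filter] at hz
  rw [mem_filter]
  refine ⟨hz.1, ?_⟩
  have h1 : (g : ℤ) * dt w₀ z = g * k' := by
    rw [← hk', ← hz.2]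
    unfold dt
    rw [hw₀, ha, hb]
    ring
  exact mul_left_cancel₀ hg0Z h1

/-- elements with norm in a window -/
noncomputable def thin (t c : ℤ) (a b : ℝ) : Finset (Qd t c) := (ball t c b).filter (fun z => a < (nm z : ℝ))

lemma mem_thin (hD : t ^ 2 < 4 * c) {a b : ℝ} {z : Qd t c} : z ∈ thin t c a b ↔ (1 ≤ nm z ∧ (nm z : ℝ) ≤ b) ∧ a < (nm z : ℝ) := by
  unfold thin
  rw [mem_filter, mem_ball hD]

lemma thin_card (hD : t ^ 2 < 4 * c) : ∃ C : ℝ, 0 < C ∧ ∀ s : ℝ, 0 < s → s ≤ 1 → ∀ δ : ℝ, 0 < δ → δ ≤ 1 → ∃ X₀ : ℝ,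
    ∀ X X' : ℝ, X₀ ≤ X → X ≤ X' → X' ≤ (1 + δ) * X →
      ((thin t c (s * X) (s * X')).card : ℝ) ≤ C * δ * X := by
  obtain ⟨K, C, hK, hC, h⟩ := cntb hD
  refine ⟨K + 1, by positivity, ?_⟩
  intro s hs hs1 δ hδ hδ1
  refine ⟨max (1 / s) (8 * C ^ 2 / δ ^ 2), ?_⟩
  intro X X' hX hXX hX'
  have hX1 : 1 / s ≤ X := (le_max_left _ _).trans hX
  have hX2 : 8 * C ^ 2 / δ ^ 2 ≤ X := (le_max_right _ _).trans hX
  have hsX : 1 ≤ s * X := by
    rw [div_le_iff₀ hs] at hX1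
    linarith
  have hX0 : 0 < X := by
    by_contra hneg
    push Not at hneg
    nlinarith
  have hsX' : s * X ≤ s * X' := by gcongr
  have hsub : thin t c (s * X) (s * X') ⊆ ball t c (s * X') \ ball t c (s * X) := by
    intro z hz
    rw [mem_thin hD] at hz
    rw [mem_sdiff, mem_ball hD, mem_ball hD]
    refine ⟨⟨?_, hz.1.2⟩, fun h => absurd h.2 (not_le.2 hz.2)⟩
    have : (1 : ℝ) < nm z := hsX.trans_lt hz.2
    exact_mod_cast this.le
  have hsub2 : (ball t c (s * X) : Finset (Qd t c)) ⊆ ball t c (s * X') := by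
    intro z hz
    rw [mem_ball hD] at hz ⊢
    exact ⟨hz.1, hz.2.trans hsX'⟩
  have hcard : ((thin t c (s * X) (s * X')).card : ℝ) ≤
      ((ball t c (s * X') : Finset (Qd t c)).card : ℝ) - ((ball t c (s * X) : Finset (Qd t c)).card : ℝ) := by
    have h1 := card_le_card hsub
    have h2 := card_sdiff_add_card_eq_card hsub2
    have h3 : ((ball t c (s * X') \ ball t c (s * X) : Finset (Qd t c)).card : ℝ) +
        ((ball t c (s * X) : Finset (Qd t c)).card : ℝ) = ((ball t c (s * X') : Finset (Qd t c)).card : ℝ) := by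
      exact_mod_cast h2
    have h4 : ((thin t c (s * X) (s * X')).card : ℝ) ≤
        ((ball t c (s * X') \ ball t c (s * X) : Finset (Qd t c)).card : ℝ) := by exact_mod_cast h1
    linarith
  have e1 := abs_le.1 (h (s * X) hsX)
  have e2 := abs_le.1 (h (s * X') (hsX.trans hsX'))
  have hX'0 : 0 ≤ X' := hX0.le.trans hXX
  have h2X : X' ≤ 2 * X := by nlinarith
  have r1 : Real.sqrt (s * X) ≤ Real.sqrt (2 * X) := Real.sqrt_le_sqrt (by nlinarith)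
  have r2 : Real.sqrt (s * X') ≤ Real.sqrt (2 * X) := Real.sqrt_le_sqrt (by nlinarith)
  have r3 : Real.sqrt (2 * X) ≤ δ * X / (2 * C) := by
    rw [Real.sqrt_le_left (by positivity), div_pow, le_div_iff₀ (by positivity)]
    rw [div_le_iff₀ (by positivity)] at hX2
    nlinarith
  have r4 : 2 * C * Real.sqrt (2 * X) ≤ δ * X := by
    rw [le_div_iff₀ (by positivity)] at r3
    linarith
  have r5 : C * Real.sqrt (s * X) ≤ C * Real.sqrt (2 * X) := by gcongr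
  have r6 : C * Real.sqrt (s * X') ≤ C * Real.sqrt (2 * X) := by gcongr
  have r7 : K * (s * X') - K * (s * X) ≤ K * (δ * X) := by
    have : s * (X' - X) ≤ 1 * (δ * X) := by
      apply mul_le_mul hs1 (by linarith) (by linarith) (by norm_num)
    nlinarith
  calc ((thin t c (s * X) (s * X')).card : ℝ) ≤ K * (δ * X) + δ * X := by linarith [e1.1, e2.2]
    _ = (K + 1) * δ * X := by ring

/-- pairs of determinant `m` whose first entry lies in a given set -/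
noncomputable def P1 (m : ℕ) (T : Finset (Qd t c)) (X : ℝ) : Finset (Qd t c × Qd t c) :=
  (T ×ˢ ball t c (4 * X)).filter (fun e => dt e.1 e.2 = m)

/-- pairs of determinant `m` whose second entry lies in a given set -/
noncomputable def P2 (m : ℕ) (T : Finset (Qd t c)) (X : ℝ) : Finset (Qd t c × Qd t c) :=
  (ball t c (4 * X) ×ˢ T).filter (fun e => dt e.1 e.2 = m)

lemma pairs (hD : t ^ 2 < 4 * c) {m : ℕ} (hm : 1 ≤ m) (s : ℝ) (hs : 0 < s) : ∃ C : ℕ, ∀ X : ℝ,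
    1 ≤ X → ∀ T : Finset (Qd t c), (∀ z ∈ T, s * X < (nm z : ℝ)) →
      (P1 m T X).card ≤ C * T.card ∧ (P2 m T X).card ≤ C * T.card := by
  obtain ⟨C, hC⟩ := lnm hD hm s hs
  refine ⟨C, fun X hX T hT => ⟨?_, ?_⟩⟩
  · refine card_le_mul_card_image_of_maps_to (f := Prod.fst) (t := T) ?_ C ?_
    · intro e he
      unfold P1 at he
      rw [mem_filter, mem_product] at he
      exact he.1.1
    · intro v hv
      refine le_trans ?_ (hC X v m hX (Or.inl rfl) (hT v hv))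
      refine card_le_card_of_injOn Prod.snd ?_ ?_
      · intro e he
        unfold P1 at he
        rw [mem_coe, mem_filter, mem_filter, mem_product] at he
        rw [mem_coe, mem_filter]
        obtain ⟨⟨⟨-, h2⟩, h3⟩, h4⟩ := he
        refine ⟨h2, ?_⟩
        rw [← h4]
        exact h3
      · intro e he e' he' hee
        rw [mem_coe, mem_filter] at he he'
        exact Prod.ext (he.2.trans he'.2.symm) hee
  · refine card_le_mul_card_image_of_maps_to (f := Prod.snd) (t := T) ?_ C ?_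
    · intro e he
      unfold P2 at he
      rw [mem_filter, mem_product] at he
      exact he.1.2
    · intro v hv
      refine le_trans ?_ (hC X v (-m) hX (Or.inr rfl) (hT v hv))
      refine card_le_card_of_injOn Prod.fst ?_ ?_
      · intro e he
        unfold P2 at he
        rw [mem_coe, mem_filter, mem_filter, mem_product] at he
        rw [mem_coe, mem_filter]
        obtain ⟨⟨⟨h1, -⟩, h3⟩, h4⟩ := he
        refine ⟨h1, ?_⟩
        rw [← h4]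
        unfold dt at h3 ⊢
        linarith
      · intro e he e' he' hee
        rw [mem_coe, mem_filter] at he he'
        exact Prod.ext hee (he.2.trans he'.2.symm)

/-- the pairs in the windows -/
noncomputable def FF (t c : ℤ) (m : ℕ) (Pr : Qd t c × Qd t c → Prop) (s₁ s₂ s₃ s₄ X : ℝ) :
    Finset (Qd t c × Qd t c) := by
  classical
  exact (ball t c X ×ˢ ball t c X).filter (fun e => (Pr e ∧ dt e.1 e.2 = m) ∧ 0 < pp e.1 e.2 ∧
    s₁ * X < (nm e.1 : ℝ) ∧ (nm e.1 : ℝ) ≤ s₂ * X ∧ s₃ * X < (nm e.2 : ℝ) ∧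
    (nm e.2 : ℝ) ≤ s₄ * X)

lemma mem_FF (hD : t ^ 2 < 4 * c) {m : ℕ} {Pr : Qd t c × Qd t c → Prop} {s₁ s₂ s₃ s₄ X : ℝ}
    {e : Qd t c × Qd t c} : e ∈ FF t c m Pr s₁ s₂ s₃ s₄ X ↔
    ((1 ≤ nm e.1 ∧ (nm e.1 : ℝ) ≤ X) ∧ (1 ≤ nm e.2 ∧ (nm e.2 : ℝ) ≤ X)) ∧
      (Pr e ∧ dt e.1 e.2 = m) ∧
      0 < pp e.1 e.2 ∧ s₁ * X < (nm e.1 : ℝ) ∧
    (nm e.1 : ℝ) ≤ s₂ * X ∧ s₃ * X < (nm e.2 : ℝ) ∧ (nm e.2 : ℝ) ≤ s₄ * X := by
  classical
  unfold FF
  rw [mem_filter, mem_product, mem_ball hD, mem_ball hD]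

theorem core (hD : t ^ 2 < 4 * c) {m : ℕ} (hm : 1 ≤ m) (Pr : Qd t c × Qd t c → Prop) :
    ∀ g : Qd t c × Qd t c → ℂ, (∀ e, ‖g e‖ ≤ 1) →
  ∀ (s₁ s₂ s₃ s₄ : ℝ), 0 < s₁ →
  s₁ < s₂ → s₂ ≤ 1 → 0 < s₃ → s₃ < s₄ → s₄ ≤ 1 → ∃ C : ℝ, 0 < C ∧
    (∀ X : ℝ, 0 < X → ‖∑ e ∈ FF t c m Pr s₁ s₂ s₃ s₄ X, g e‖ ≤ C * X) ∧
    ∀ δ : ℝ, 0 < δ → δ ≤ 1 → ∃ X₀ : ℝ, ∀ X X' : ℝ, X₀ ≤ X → X ≤ X' → X' ≤ (1 + δ) * X →
      ‖∑ e ∈ FF t c m Pr s₁ s₂ s₃ s₄ X', g e - ∑ e ∈ FF t c m Pr s₁ s₂ s₃ s₄ X, g e‖ ≤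
        C * δ * X := by
  intro g hg s₁ s₂ s₃ s₄ h1 h12 h2 h3 h34 h4
  obtain ⟨s, hs, hs1, hs2, hs3, hs4⟩ : ∃ s : ℝ, 0 < s ∧ s ≤ s₁ ∧ s ≤ s₂ ∧ s ≤ s₃ ∧ s ≤ s₄ :=
    ⟨min s₁ s₃, lt_min h1 h3, min_le_left _ _, (min_le_left _ _).trans h12.le, min_le_right _ _,
      (min_le_right _ _).trans h34.le⟩
  obtain ⟨K, C₀, hK, hC₀, hcnt⟩ := cntb hD
  obtain ⟨C₁, hC₁, hthin⟩ := thin_card hD
  obtain ⟨C₂, hpair⟩ := pairs hD hm s hs
  refine ⟨C₂ * (K + C₀) + 4 * (C₂ * C₁) + 1, by positivity, ?_, ?_⟩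
  · intro X hX
    refine (nsl hg _).trans ?_
    rcases lt_or_ge X 1 with hX1 | hX1
    · have : FF t c m Pr s₁ s₂ s₃ s₄ X = ∅ := by
        rw [eq_empty_iff_forall_notMem]
        intro e he
        rw [mem_FF hD] at he
        have h5 : 1 ≤ nm e.1 := he.1.1.1
        have h6 : (1 : ℝ) ≤ nm e.1 := by exact_mod_cast h5
        linarith [he.1.1.2]
      rw [this, card_empty, Nat.cast_zero]
      positivity
    · obtain ⟨T, hT⟩ : ∃ T : Finset (Qd t c), T = thin t c (s * X) X := ⟨_, rfl⟩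
      have hsub : FF t c m Pr s₁ s₂ s₃ s₄ X ⊆ P1 m T X := by
        intro e he
        rw [mem_FF hD] at he
        obtain ⟨⟨⟨a1, a2⟩, a3, a4⟩, ⟨a0, a5⟩, a6, a7, a8, a9, a10⟩ := he
        unfold P1
        rw [mem_filter, mem_product, mem_ball hD, hT, mem_thin hD]
        refine ⟨⟨⟨⟨a1, a2⟩, ?_⟩, a3, by linarith⟩, a5⟩
        exact lt_of_le_of_lt (by gcongr) a7
      have hp := (hpair X hX1 T (fun z hz => by
        rw [hT, mem_thin hD] at hz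
        exact hz.2)).1
      have hTb : T ⊆ ball t c X := by
        intro z hz
        rw [hT, mem_thin hD] at hz
        rw [mem_ball hD]
        exact hz.1
      have hb := (abs_le.1 (hcnt X hX1)).2
      have hsq : Real.sqrt X ≤ X := by
        rw [Real.sqrt_le_left (by linarith)]
        nlinarith
      have c1 : ((FF t c m Pr s₁ s₂ s₃ s₄ X).card : ℝ) ≤ C₂ * (T.card : ℝ) := by
        exact_mod_cast (card_le_card hsub).trans hp
      have c2 : (T.card : ℝ) ≤ ((ball t c X : Finset (Qd t c)).card : ℝ) := by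
        exact_mod_cast card_le_card hTb
      have c3 : C₀ * Real.sqrt X ≤ C₀ * X := by gcongr
      have c4 : (T.card : ℝ) ≤ (K + C₀) * X := by linarith
      have c5 : (C₂ : ℝ) * (T.card : ℝ) ≤ C₂ * ((K + C₀) * X) := by gcongr
      have c6 : 0 ≤ (4 * ((C₂ : ℝ) * C₁) + 1) * X := by positivity
      calc ((FF t c m Pr s₁ s₂ s₃ s₄ X).card : ℝ) ≤ C₂ * ((K + C₀) * X) := c1.trans c5
        _ ≤ C₂ * ((K + C₀) * X) + (4 * ((C₂ : ℝ) * C₁) + 1) * X := by linarith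
        _ = _ := by ring
  · intro δ hδ hδ1
    obtain ⟨Y₁, hY₁⟩ := hthin s₁ h1 (by linarith) δ hδ hδ1
    obtain ⟨Y₂, hY₂⟩ := hthin s₂ (h1.trans h12) h2 δ hδ hδ1
    obtain ⟨Y₃, hY₃⟩ := hthin s₃ h3 (by linarith) δ hδ hδ1
    obtain ⟨Y₄, hY₄⟩ := hthin s₄ (h3.trans h34) h4 δ hδ hδ1
    refine ⟨max 1 (max (max Y₁ Y₂) (max Y₃ Y₄)), ?_⟩
    intro X X' hX hXX hX'
    have hX1 : 1 ≤ X := (le_max_left _ _).trans hX
    have hXm : max (max Y₁ Y₂) (max Y₃ Y₄) ≤ X := (le_max_right _ _).trans hX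
    have y1 : Y₁ ≤ X := ((le_max_left _ _).trans (le_max_left _ _)).trans hXm
    have y2 : Y₂ ≤ X := ((le_max_right _ _).trans (le_max_left _ _)).trans hXm
    have y3 : Y₃ ≤ X := ((le_max_left _ _).trans (le_max_right _ _)).trans hXm
    have y4 : Y₄ ≤ X := ((le_max_right _ _).trans (le_max_right _ _)).trans hXm
    have t1 := hY₁ X X' y1 hXX hX'
    have t2 := hY₂ X X' y2 hXX hX'
    have t3 := hY₃ X X' y3 hXX hX'
    have t4 := hY₄ X X' y4 hXX hX'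
    have hX0 : 0 < X := by linarith
    have hX'0 : 0 < X' := by linarith
    have h2X : X' ≤ 2 * X :=
      hX'.trans (mul_le_mul_of_nonneg_right (by linarith only [hδ1]) hX0.le)
    classical
    have key : ∀ (σ : ℝ), s ≤ σ → ∀ z ∈ thin t c (σ * X) (σ * X'), s * X < (nm z : ℝ) := by
      intro σ hσ z hz
      rw [mem_thin hD] at hz
      exact lt_of_le_of_lt (by gcongr) hz.2
    have p1 := (hpair X hX1 (thin t c (s₁ * X) (s₁ * X')) (key s₁ hs1)).1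
    have p2 := (hpair X hX1 (thin t c (s₂ * X) (s₂ * X')) (key s₂ hs2)).1
    have p3 := (hpair X hX1 (thin t c (s₃ * X) (s₃ * X')) (key s₃ hs3)).2
    have p4 := (hpair X hX1 (thin t c (s₄ * X) (s₄ * X')) (key s₄ hs4)).2
    have i1 : s₁ * X ≤ s₁ * X' := by gcongr
    have i2 : s₂ * X ≤ s₂ * X' := mul_le_mul_of_nonneg_left hXX (by linarith)
    have i3 : s₃ * X ≤ s₃ * X' := by gcongr
    have i4 : s₄ * X ≤ s₄ * X' := mul_le_mul_of_nonneg_left hXX (by linarith)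
    have j2 : s₂ * X ≤ X := mul_le_of_le_one_left hX0.le h2
    have j4 : s₄ * X ≤ X := mul_le_of_le_one_left hX0.le h4
    have hsubA : FF t c m Pr s₁ s₂ s₃ s₄ X' \ FF t c m Pr s₁ s₂ s₃ s₄ X ⊆
        P1 m (thin t c (s₂ * X) (s₂ * X')) X ∪ P2 m (thin t c (s₄ * X) (s₄ * X')) X := by
      intro e he
      rw [mem_sdiff, mem_FF hD, mem_FF hD] at he
      obtain ⟨⟨⟨⟨a1, a2⟩, a3, a4⟩, ⟨a0, a5⟩, a6, a7, a8, a9, a10⟩, hn⟩ := he
      have b1 : 1 ≤ nm e.1 := a1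
      have b2 : 1 ≤ nm e.2 := a3
      rw [mem_union]
      unfold P1 P2
      rw [mem_filter, mem_product, mem_ball hD, mem_thin hD, mem_filter, mem_product, mem_ball hD,
        mem_thin hD]
      by_contra hc
      push Not at hc
      apply hn
      have k1 : (nm e.1 : ℝ) ≤ s₂ * X := by
        by_contra hk
        push Not at hk
        exact hc.1 ⟨⟨⟨a1, a8⟩, hk⟩, b2, by linarith⟩ a5
      have k2 : (nm e.2 : ℝ) ≤ s₄ * X := by
        by_contra hk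
        push Not at hk
        exact hc.2 ⟨⟨b1, by linarith⟩, ⟨a3, a10⟩, hk⟩ a5
      exact ⟨⟨⟨a1, k1.trans j2⟩, a3, k2.trans j4⟩, ⟨a0, a5⟩, a6, i1.trans_lt a7, k1, i3.trans_lt a9, k2⟩
    have hsubB : FF t c m Pr s₁ s₂ s₃ s₄ X \ FF t c m Pr s₁ s₂ s₃ s₄ X' ⊆
        P1 m (thin t c (s₁ * X) (s₁ * X')) X ∪ P2 m (thin t c (s₃ * X) (s₃ * X')) X := by
      intro e he
      rw [mem_sdiff, mem_FF hD, mem_FF hD] at he
      obtain ⟨⟨⟨⟨a1, a2⟩, a3, a4⟩, ⟨a0, a5⟩, a6, a7, a8, a9, a10⟩, hn⟩ := he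
      have b1 : 1 ≤ nm e.1 := a1
      have b2 : 1 ≤ nm e.2 := a3
      rw [mem_union]
      unfold P1 P2
      rw [mem_filter, mem_product, mem_ball hD, mem_thin hD, mem_filter, mem_product, mem_ball hD,
        mem_thin hD]
      by_contra hc
      push Not at hc
      apply hn
      have k1 : s₁ * X' < (nm e.1 : ℝ) := by
        by_contra hk
        push Not at hk
        exact hc.1 ⟨⟨⟨a1, hk⟩, a7⟩, b2, by linarith⟩ a5
      have k2 : s₃ * X' < (nm e.2 : ℝ) := by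
        by_contra hk
        push Not at hk
        exact hc.2 ⟨⟨b1, by linarith⟩, ⟨a3, hk⟩, a9⟩ a5
      exact ⟨⟨⟨a1, a2.trans hXX⟩, a3, a4.trans hXX⟩, ⟨a0, a5⟩, a6, k1, a8.trans i2, k2, a10.trans i4⟩
    have cA : ((FF t c m Pr s₁ s₂ s₃ s₄ X' \ FF t c m Pr s₁ s₂ s₃ s₄ X).card : ℝ) ≤
        C₂ * ((thin t c (s₂ * X) (s₂ * X')).card : ℝ) + C₂ * ((thin t c (s₄ * X) (s₄ * X')).card : ℝ) := by
      exact_mod_cast ((card_le_card hsubA).trans (card_union_le _ _)).trans (add_le_add p2 p4)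
    have cB : ((FF t c m Pr s₁ s₂ s₃ s₄ X \ FF t c m Pr s₁ s₂ s₃ s₄ X').card : ℝ) ≤
        C₂ * ((thin t c (s₁ * X) (s₁ * X')).card : ℝ) + C₂ * ((thin t c (s₃ * X) (s₃ * X')).card : ℝ) := by
      exact_mod_cast ((card_le_card hsubB).trans (card_union_le _ _)).trans (add_le_add p1 p3)
    have u1 : (C₂ : ℝ) * ((thin t c (s₁ * X) (s₁ * X')).card : ℝ) ≤ C₂ * (C₁ * δ * X) := by gcongr
    have u2 : (C₂ : ℝ) * ((thin t c (s₂ * X) (s₂ * X')).card : ℝ) ≤ C₂ * (C₁ * δ * X) := by gcongr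
    have u3 : (C₂ : ℝ) * ((thin t c (s₃ * X) (s₃ * X')).card : ℝ) ≤ C₂ * (C₁ * δ * X) := by gcongr
    have u4 : (C₂ : ℝ) * ((thin t c (s₄ * X) (s₄ * X')).card : ℝ) ≤ C₂ * (C₁ * δ * X) := by gcongr
    rw [← sum_sdiff_sub_sum_sdiff]
    refine (norm_sub_le _ _).trans ?_
    have v1 := nsl hg (FF t c m Pr s₁ s₂ s₃ s₄ X' \ FF t c m Pr s₁ s₂ s₃ s₄ X)
    have v2 := nsl hg (FF t c m Pr s₁ s₂ s₃ s₄ X \ FF t c m Pr s₁ s₂ s₃ s₄ X')
    have c6 : 0 ≤ ((C₂ : ℝ) * (K + C₀) + 1) * (δ * X) := by positivity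
    calc _ ≤ 4 * (C₂ * (C₁ * δ * X)) := by linarith
      _ ≤ 4 * (C₂ * (C₁ * δ * X)) + ((C₂ : ℝ) * (K + C₀) + 1) * (δ * X) := by linarith
      _ = _ := by ring

lemma AGL_eq (hD : t ^ 2 < 4 * c) (m : ℕ) (r₀ : ℤ) (g : Qd t c × Qd t c → ℂ)
    (s₁ s₂ s₃ s₄ X : ℝ) : AGL m r₀ g s₁ s₂ s₃ s₄ X =
      ∑ e ∈ FF t c m (fun e => lat m r₀ e.1 ∧ lat m r₀ e.2) s₁ s₂ s₃ s₄ (m * X), g e := by
  classical
  unfold AGL
  refine sum_congr ?_ fun _ _ => rfl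
  ext e
  rw [mem_FF hD, mem_filter]
  unfold DL
  rw [mem_filter, mem_product, mem_ball hD, mem_ball hD]
  tauto

theorem regl {t c : ℤ} (hD : t ^ 2 < 4 * c) {m : ℕ} {r₀ : ℤ} (hI : Iv t c m r₀) :
    S_REGL t c m r₀ := by
  intro g hg s₁ s₂ s₃ s₄ h1 h12 h2 h3 h34 h4
  have hm := hI.pos
  have hmR : (1 : ℝ) ≤ m := by exact_mod_cast hm
  obtain ⟨C, hC, hA, hB⟩ := core hD hm (fun e => lat m r₀ e.1 ∧ lat m r₀ e.2) g hg s₁ s₂ s₃ s₄
    h1 h12 h2 h3 h34 h4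
  refine ⟨C * m, by positivity, fun X hX => ?_, fun δ hδ hδ1 => ?_⟩
  · rw [AGL_eq hD]
    have := hA (m * X) (by positivity)
    linarith
  · obtain ⟨X₀, hX₀⟩ := hB δ hδ hδ1
    refine ⟨max X₀ 0, fun X X' hX hXX hX' => ?_⟩
    have hX0 : 0 ≤ X := (le_max_right _ _).trans hX
    have h5 : X₀ ≤ m * X := by
      have : X ≤ m * X := le_mul_of_one_le_left hX0 hmR
      exact ((le_max_left _ _).trans hX).trans this
    rw [AGL_eq hD, AGL_eq hD]
    have := hX₀ (m * X) (m * X') h5 (by gcongr) (by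
      calc (m : ℝ) * X' ≤ m * ((1 + δ) * X) := by gcongr
        _ = (1 + δ) * (m * X) := by ring)
    linarith

end Pool.Agent.N196.LC
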